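import Pool.Agent.X100.HT.Final

/-!
# Hall's inequality for almost all translates of the lattice

For almost every point `(s, t)` of the unit square the translate of the integer lattice by `(s, t)` satisfies the weak form
of Hall's conjecture, and not the strong form: `|(y + t)^2 - (x + s)^3| ≤ x^(1/2 - ε)` has only finitely many solutions,
while the number of solutions of `|(y + t)^2 - (x + s)^3| ≤ c x^(1/2)` with `1 ≤ x ≤ N` is asymptotic to `2 c log N`, for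
every `c > 0`. In general, for `1 ≤ m < k` and an arbitrary function `ψ` (no monotonicity is assumed) below a power of `x`,
the inequality `|(y + t)^m - (x + s)^k| ≤ ψ x` has finitely many solutions or an asymptotic number of solutions, for almost
every `(s, t)`, according as the series of `ψ x / x^(k - k/m)` converges or diverges.
-/

set_option autoImplicit false

namespace Pool.Agent.Results.MP_e734ed_nt.GenericTranslates

open MeasureTheory Filter Topology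

/-- The unit square. -/
def Square : Set (ℝ × ℝ) := Set.Icc (0:ℝ) 1 ×ˢ Set.Icc (0:ℝ) 1

/-- The pairs `(x, y)` of natural numbers, `x ≥ 1`, for which the point `(x + s, y + t)`, `p = (s, t)`, satisfies
`|(y + t)^m - (x + s)^k| ≤ ψ x`. -/
def Near (m k : ℕ) (ψ : ℕ → ℝ) (p : ℝ × ℝ) : Set (ℕ × ℕ) :=
  {q | 1 ≤ q.1 ∧ |((q.2 : ℝ) + p.2) ^ m - ((q.1 : ℝ) + p.1) ^ k| ≤ ψ q.1}

open Pool.Agent.X100.HT in
lemma del_eq {n k : ℕ} (ψ : ℕ → ℝ) {x : ℕ} (hx : 1 ≤ x) :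
    del n k ψ x = 1 / ((n : ℝ) + 1) * (ψ x / (x : ℝ) ^ ((k : ℝ) - (k : ℝ) / ((n : ℝ) + 1))) := by
  have hx0 : (0:ℝ) < x := by exact_mod_cast hx
  unfold del al
  have h1 : ((x : ℝ) ^ ((k : ℝ) / ((n : ℝ) + 1))) ^ n
      = (x : ℝ) ^ ((k : ℝ) - (k : ℝ) / ((n : ℝ) + 1)) := by
    rw [← Real.rpow_natCast, ← Real.rpow_mul hx0.le]
    congr 1
    field_simp
    ring
  rw [h1]
  have h2 : (x : ℝ) ^ ((k : ℝ) - (k : ℝ) / ((n : ℝ) + 1)) ≠ 0 := by positivity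
  field_simp

open Pool.Agent.X100.HT in
lemma summable_iff {n k : ℕ} (ψ : ℕ → ℝ) :
    Summable (del n k ψ)
      ↔ Summable fun x : ℕ => ψ x / (x : ℝ) ^ ((k : ℝ) - (k : ℝ) / ((n : ℝ) + 1)) := by
  rw [← summable_nat_add_iff 1, ← summable_nat_add_iff (f := fun x : ℕ =>
    ψ x / (x : ℝ) ^ ((k : ℝ) - (k : ℝ) / ((n : ℝ) + 1))) 1]
  have h : ∀ x : ℕ, del n k ψ (x + 1) = 1 / ((n : ℝ) + 1)
      * (ψ (x + 1) / ((x + 1 : ℕ) : ℝ) ^ ((k : ℝ) - (k : ℝ) / ((n : ℝ) + 1))) :=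
    fun x => del_eq ψ (by omega)
  simp_rw [h]
  have hn : (1 / ((n : ℝ) + 1)) ≠ 0 := by positivity
  exact summable_mul_left_iff hn

/-- (1), (2): the general statement for `|(y + t)^m - (x + s)^k| ≤ ψ x`. (3): Hall's inequality for almost all
translates. -/
theorem result :
    (∀ m k : ℕ, 1 ≤ m → m < k → ∀ ψ : ℕ → ℝ, (∀ x, 0 ≤ ψ x) →
      ∀ ρ : ℝ, 0 < ρ → 2 - (k : ℝ) / m < ρ →
      (∀ᶠ x : ℕ in atTop, ψ x ≤ (x : ℝ) ^ ((k : ℝ) - (k : ℝ) / m - ρ)) →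
      ((Summable fun x : ℕ => ψ x / (x : ℝ) ^ ((k : ℝ) - (k : ℝ) / m)) →
        ∀ᵐ p ∂(volume.restrict Square), (Near m k ψ p).Finite) ∧
      ((¬ Summable fun x : ℕ => ψ x / (x : ℝ) ^ ((k : ℝ) - (k : ℝ) / m)) →
        ∀ᵐ p ∂(volume.restrict Square), Tendsto (fun N : ℕ =>
          ({q | q ∈ Near m k ψ p ∧ q.1 ≤ N}.ncard : ℝ)
            / (2 / m * ∑ x ∈ Finset.Icc 1 N, ψ x / (x : ℝ) ^ ((k : ℝ) - (k : ℝ) / m)))
          atTop (𝓝 1))) ∧
    (∀ᵐ p ∂(volume.restrict Square),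
      (∀ ε : ℝ, 0 < ε → {q : ℕ × ℤ | 1 ≤ q.1 ∧
        |((q.2 : ℝ) + p.2) ^ 2 - ((q.1 : ℝ) + p.1) ^ 3| ≤ (q.1 : ℝ) ^ (1 / 2 - ε)}.Finite) ∧
      (∀ c : ℝ, 0 < c → Tendsto (fun N : ℕ => ({q : ℕ × ℤ | 1 ≤ q.1 ∧ q.1 ≤ N ∧
        |((q.2 : ℝ) + p.2) ^ 2 - ((q.1 : ℝ) + p.1) ^ 3| ≤ c * Real.sqrt q.1}.ncard : ℝ)
          / Real.log N) atTop (𝓝 (2 * c)))) := by
  have hP : volume.restrict Square = Pool.Agent.X100.HT.PP := Pool.Agent.X100.HT.PP_eq.symm
  rw [hP]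
  refine ⟨?_, ?_⟩
  · intro m k hm hmk ψ hψ0 ρ hρ hρ2 hψ
    obtain ⟨n, rfl⟩ : ∃ n, m = n + 1 := ⟨m - 1, by omega⟩
    push_cast at hψ hρ2 ⊢
    have hbet : Pool.Agent.X100.HT.bet (Pool.Agent.X100.HT.al n k) < ρ := by
      unfold Pool.Agent.X100.HT.bet Pool.Agent.X100.HT.al
      exact max_lt hρ hρ2
    have hψ' : ∀ᶠ x : ℕ in atTop, ψ x
        ≤ ((x : ℝ) ^ Pool.Agent.X100.HT.al n k) ^ n * (x : ℝ) ^ (-ρ) := by
      filter_upwards [hψ, eventually_ge_atTop 1] with x h1 h2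
      have hx0 : (0:ℝ) < x := by exact_mod_cast h2
      refine h1.trans (le_of_eq ?_)
      unfold Pool.Agent.X100.HT.al
      rw [← Real.rpow_natCast, ← Real.rpow_mul hx0.le, ← Real.rpow_add hx0]
      congr 1
      field_simp
      ring
    constructor
    · intro hs
      rw [← summable_iff] at hs
      filter_upwards [Pool.Agent.X100.HT.count_conv hmk hψ0 hρ hψ' hs,
        Pool.Agent.X100.HT.PP_mem] with p hp hmem
      obtain ⟨⟨h1, h2⟩, h3, h4⟩ := hmem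
      exact Pool.Agent.X100.HT.all_finite (fun x => Pool.Agent.X100.HT.Sol (n + 1) k ψ x p)
        (fun x => Pool.Agent.X100.HT.Sol_finite n k ψ x h1 h3) hp
    · intro hs
      rw [← summable_iff] at hs
      filter_upwards [Pool.Agent.X100.HT.count_law hmk hψ0 hbet hψ' hs,
        Pool.Agent.X100.HT.PP_mem] with p hp hmem
      obtain ⟨⟨h1, h2⟩, h3, h4⟩ := hmem
      refine hp.congr fun N => ?_
      have e1 := Pool.Agent.X100.HT.pairs_card (fun x => Pool.Agent.X100.HT.Sol (n + 1) k ψ x p)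
        (fun x => Pool.Agent.X100.HT.Sol_finite n k ψ x h1 h3) N
      have e2 : {q | q ∈ Near (n + 1) k ψ p ∧ q.1 ≤ N}
          = {q : ℕ × ℕ | 1 ≤ q.1 ∧ q.1 ≤ N ∧ q.2 ∈ Pool.Agent.X100.HT.Sol (n + 1) k ψ q.1 p} := by
        ext q
        constructor
        · rintro ⟨⟨h5, h6⟩, h7⟩
          exact ⟨h5, h7, h6⟩
        · rintro ⟨h5, h6, h7⟩
          exact ⟨⟨h5, h7⟩, h6⟩
      rw [e2, e1, Finset.range_eq_Ico, Finset.sum_Ico_add' (fun x => 2
        * Pool.Agent.X100.HT.del n k ψ x) 0 N 1]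
      have e3 : ∑ x ∈ Finset.Ico (0 + 1) (N + 1), 2 * Pool.Agent.X100.HT.del n k ψ x
          = 2 / ((n : ℝ) + 1) * ∑ x ∈ Finset.Icc 1 N,
            ψ x / (x : ℝ) ^ ((k : ℝ) - (k : ℝ) / ((n : ℝ) + 1)) := by
        rw [zero_add, Finset.mul_sum]
        apply Finset.sum_congr
        · ext x
          simp only [Finset.mem_Ico, Finset.mem_Icc]
          omega
        · intro x hx
          rw [del_eq ψ (Finset.mem_Icc.1 hx).1]
          ring
      rw [e3]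
      push_cast
      rfl
  · filter_upwards [Pool.Agent.X100.HT.hall_conv_all, Pool.Agent.X100.HT.hall_all] with p h1 h2
    exact ⟨h1, h2⟩

end Pool.Agent.Results.MP_e734ed_nt.GenericTranslates
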