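import Pool.Agent.Results.MP_e734ed_nt.SparseExceptions
import Pool.Agent.X123.MT.Null

/-!
# Hall's inequality near the points outside a small set

Let `s` be any map from the pairs of integers to a metric space, for example `s(x, y) = x` in the `p`-adic
integers, or the fractional part of `√|x|` or of `α x` as a real number. Let `0 ≤ δ ≤ 1/2`. For `τ > 0` all points
`θ` outside a set of Hausdorff dimension at most `(1/3 - δ/6) / τ` have the property that for EVERY `C` only finitely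
many pairs of integers with `y ^ 2 ≠ x ^ 3` and `|θ - s(x, y)| ≤ |x| ^ (-τ)` satisfy `|y ^ 2 - x ^ 3| ≤ C |x| ^ (1/2 - δ)`;
here `δ = 0` is Hall's own exponent. For a map into the real numbers these are almost all real `θ` as soon as
`τ > 1/3 - δ/6`.
-/

set_option autoImplicit false

open scoped ENNReal

namespace Pool.Agent.Results.MP_e734ed_nt.HallNearTargets

open Pool.Agent.X123.MT MeasureTheory

/-- `max (|x|, 1)` -/
noncomputable def size (e : ℤ × ℤ) : ℝ := max |(e.1 : ℝ)| 1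

/-- the pairs `(x, y)` with `y ^ 2 ≠ x ^ 3`, `|y ^ 2 - x ^ 3| ≤ C |x| ^ (1/2 - δ)` and
`|θ - s(x, y)| ≤ max (|x|, 1) ^ (-τ)` -/
def Close {M : Type} [MetricSpace M] (s : ℤ × ℤ → M) (δ τ C : ℝ) (θ : M) : Set (ℤ × ℤ) :=
  {e | (e.2 ^ 2 ≠ e.1 ^ 3 ∧
    |(e.2 : ℝ) ^ 2 - (e.1 : ℝ) ^ 3| ≤ C * |(e.1 : ℝ)| ^ (1 / 2 - δ)) ∧
    dist θ (s e) ≤ size e ^ (-τ)}

/-- the exceptional pairs -/
def Exc (C δ : ℝ) : Set (ℤ × ℤ) :=
  {e : ℤ × ℤ | e.2 ^ 2 ≠ e.1 ^ 3 ∧ |(e.2 : ℝ) ^ 2 - (e.1 : ℝ) ^ 3| ≤ C * |(e.1 : ℝ)| ^ (1 / 2 - δ)}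

lemma size_pos (e : ℤ × ℤ) : 1 ≤ size e := le_max_right _ _

lemma cnt (C δ : ℝ) (h0 : 0 ≤ δ) (h1 : δ ≤ 1 / 2) :
    Cnt (Exc C δ) (fun e => Real.log (size e)) (1 / 3 - δ / 6) := by
  apply cnt_of_pow (H := size)
  · exact fun e _ => lt_of_lt_of_le one_pos (size_pos e)
  · intro ε hε
    obtain ⟨K, hK⟩ := SparseExceptions.result C ε hε
    refine ⟨K, fun X hX => ?_⟩
    obtain ⟨h2, h3⟩ := hK δ h0 h1 X hX
    have hsub : {e | e ∈ Exc C δ ∧ size e ≤ X} ⊆ {e : ℤ × ℤ | |(e.1 : ℝ)| ≤ X ∧ e.2 ^ 2 ≠ e.1 ^ 3 ∧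
        |(e.2 : ℝ) ^ 2 - (e.1 : ℝ) ^ 3| ≤ C * |(e.1 : ℝ)| ^ (1 / 2 - δ)} := by
      rintro e ⟨⟨h4, h5⟩, h6⟩
      exact ⟨(le_max_left _ _).trans h6, h4, h5⟩
    refine ⟨h2.subset hsub, le_trans ?_ h3⟩
    exact_mod_cast Set.ncard_le_ncard hsub h2

/-- **Theorem.** Let `0 ≤ δ ≤ 1/2` and `τ > 0`. (1) For every map `s` from the pairs of integers to a metric space
there is a set `E` of Hausdorff dimension at most `(1/3 - δ/6) / τ` such that for each `θ` outside `E` and EVERY `C`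
only finitely many pairs of integers `(x, y)` satisfy `y ^ 2 ≠ x ^ 3`, `|y ^ 2 - x ^ 3| ≤ C |x| ^ (1/2 - δ)` and
`|θ - s(x, y)| ≤ max (|x|, 1) ^ (-τ)`. (2) If `τ > 1/3 - δ/6` and `s` is a map to the real numbers, this holds for almost
all real `θ`. (3) If `τ > 1/6 - δ/12` and `s` is a map to the complex numbers, this holds for almost all complex `θ`. -/
theorem result (δ τ : ℝ) (h0 : 0 ≤ δ) (h1 : δ ≤ 1 / 2) (hτ : 0 < τ) :
    (∀ (M : Type) [MetricSpace M] (s : ℤ × ℤ → M),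
      ∃ E : Set M, dimH E ≤ ENNReal.ofReal ((1 / 3 - δ / 6) / τ) ∧
        ∀ θ : M, θ ∉ E → ∀ C : ℝ, (Close s δ τ C θ).Finite) ∧
    (1 / 3 - δ / 6 < τ → ∀ s : ℤ × ℤ → ℝ, ∀ᵐ θ : ℝ, ∀ C : ℝ, (Close s δ τ C θ).Finite) ∧
    (1 / 6 - δ / 12 < τ → ∀ s : ℤ × ℤ → ℂ, ∀ᵐ θ : ℂ, ∀ C : ℝ, (Close s δ τ C θ).Finite) := by
  have main : ∀ (M : Type) [MetricSpace M] (s : ℤ × ℤ → M),
      ∃ E : Set M, dimH E ≤ ENNReal.ofReal ((1 / 3 - δ / 6) / τ) ∧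
        ∀ θ : M, θ ∉ E → ∀ C : ℝ, (Close s δ τ C θ).Finite := by
    intro M _ s
    obtain ⟨E, hE, hE2⟩ := pos_dim (fun k : ℕ => Exc (k : ℝ) δ) (fun e => Real.log (size e))
      (fun _ e _ => Real.log_nonneg (size_pos e)) (by linarith : (0 : ℝ) ≤ 1 / 3 - δ / 6) hτ
      (fun k => cnt k δ h0 h1) s
    refine ⟨E, hE, fun θ hθ C => ?_⟩
    obtain ⟨k, hk⟩ := exists_nat_ge C
    refine (hE2 θ hθ k).subset ?_
    rintro e ⟨⟨h2, h3⟩, h4⟩
    refine ⟨⟨h2, h3.trans (mul_le_mul_of_nonneg_right hk (by positivity))⟩, ?_⟩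
    change dist θ (s e) ≤ Real.exp (-(τ * Real.log (size e)))
    rw [exp_eq_pow (lt_of_lt_of_le one_pos (size_pos e))]
    exact h4
  refine ⟨main, fun h2 s => ?_, fun h2 s => ?_⟩
  · obtain ⟨E, hE, hE2⟩ := main ℝ s
    have h3 : volume E = 0 := null_real (by rwa [div_lt_one hτ]) hE
    filter_upwards [measure_eq_zero_iff_ae_notMem.1 h3] with θ hθ
    exact hE2 θ hθ
  · obtain ⟨E, hE, hE2⟩ := main ℂ s
    have h3 : volume E = 0 := null_complex (by rw [div_lt_iff₀ hτ]; linarith) hE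
    filter_upwards [measure_eq_zero_iff_ae_notMem.1 h3] with θ hθ
    exact hE2 θ hθ

end Pool.Agent.Results.MP_e734ed_nt.HallNearTargets
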