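import Pool.Agent.Results.MP_e734ed_nt.SparseExceptions
import Pool.Agent.X16.NW.D

/-!
# Hall's inequality near the powers of almost all real numbers

For almost all real numbers `t > 1` and every constant `C`, for all large `n` the inequality
`|y² - x³| > C |x| ^ (1/2)` holds for ALL integers `x`, `y`, `y² ≠ x³`, with
`||x| - t ^ n| ≤ t ^ (θ n)`, `θ < 2/3` any constant; in particular for `x = ⌊t ^ n⌋` and all `y`. The same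
is true for `t ^ κ_n` with any real exponents such that `κ_n / log n → ∞`, and for the numbers `n ^ t` for
almost all `t > 1 / (2/3 - θ)`.

In general let `f_n : I → ℝ` be a family of functions whose logarithmic slopes are bounded from below by a
positive constant, locally uniformly in `t` and uniformly in `n`, and which are locally bounded from below
by sequences with exponent of convergence at most `τ`. For all `t ∈ I` outside a set of Hausdorff dimension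
at most `(1/3 - δ/6 + τ) / (1 - θ)`, for all large `n` the inequality `|y² - x³| > C |x| ^ (1/2 - δ)` holds
for all integers with `||x| - f_n(t)| ≤ f_n(t) ^ θ`.

The starting result `WindowsWithoutExceptions` is about the linear families `f_n(t) = t v_n`. Here an
exceptional pair can be met by windows of many different indices at different places, and the cover of the
exceptional set is built from all exceptional pairs with `|x|` larger than the lower bound of `f_n`.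
-/

set_option autoImplicit false

open Filter Topology MeasureTheory

namespace Pool.Agent.Results.MP_e734ed_nt.RealPowers

/-- the exponent of convergence of the sequence `w` is at most `τ` -/
def ExpLe (w : ℕ → ℝ) (τ : ℝ) : Prop := ∀ p : ℝ, τ < p → Summable (fun n : ℕ => (w n) ^ (-p))

/-- For all large `n`, `f_n ≥ w_n ≥ 1` on `I` for a sequence `w` with exponent of convergence at most `τ`,
and the logarithmic slopes `(f_n(u) - f_n(t)) / ((u - t) f_n(t))`, `t < u` in `I`, are at least a positive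
constant `c`. -/
def Expanding (f : ℕ → ℝ → ℝ) (I : Set ℝ) (τ : ℝ) : Prop :=
  ∃ (w : ℕ → ℝ) (c : ℝ) (n₁ : ℕ), 0 < c ∧ ExpLe w τ ∧ ∀ n, n₁ ≤ n → 1 ≤ w n ∧ ∀ t ∈ I, w n ≤ f n t ∧
    ∀ u ∈ I, t ≤ u → c * f n t * (u - t) ≤ f n u - f n t

/-- `I` is covered by countably many sets on which the family `f` is expanding -/
def LocExpanding (f : ℕ → ℝ → ℝ) (I : Set ℝ) (τ : ℝ) : Prop :=
  ∃ J : ℕ → Set ℝ, I ⊆ ⋃ A, J A ∧ ∀ A, Expanding f (J A) τ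

/-- the exceptional pairs -/
def Exc (C δ : ℝ) : Set (ℤ × ℤ) :=
  {e : ℤ × ℤ | e.2 ^ 2 ≠ e.1 ^ 3 ∧ |(e.2 : ℝ) ^ 2 - (e.1 : ℝ) ^ 3| ≤ C * |(e.1 : ℝ)| ^ (1 / 2 - δ)}

lemma count_x (C δ : ℝ) (h0 : 0 ≤ δ) (h1 : δ ≤ 1 / 2) (ε : ℝ) (hε : 0 < ε) : ∃ K : ℝ, ∀ X : ℝ, 1 ≤ X →
    {e | e ∈ Exc C δ ∧ |((e.1 : ℤ) : ℝ)| ≤ X}.Finite ∧
      ({e | e ∈ Exc C δ ∧ |((e.1 : ℤ) : ℝ)| ≤ X}.ncard : ℝ) ≤ K * X ^ (1 / 3 - δ / 6 + ε) := by
  obtain ⟨K, hK⟩ := SparseExceptions.result C ε hε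
  refine ⟨K, fun X hX => ?_⟩
  have e : {e | e ∈ Exc C δ ∧ |((e.1 : ℤ) : ℝ)| ≤ X} = {e : ℤ × ℤ | |(e.1 : ℝ)| ≤ X ∧ e.2 ^ 2 ≠ e.1 ^ 3 ∧
      |(e.2 : ℝ) ^ 2 - (e.1 : ℝ) ^ 3| ≤ C * |(e.1 : ℝ)| ^ (1 / 2 - δ)} := by
    ext e
    constructor
    · rintro ⟨⟨h2, h3⟩, h4⟩
      exact ⟨h4, h2, h3⟩
    · rintro ⟨h4, h2, h3⟩
      exact ⟨⟨h2, h3⟩, h4⟩
  rw [e]
  exact hK δ h0 h1 X hX

/-- (1) For every locally expanding family `f` on `I` with exponent `τ ≥ 0`, `0 ≤ θ < 1`, `0 ≤ δ ≤ 1/2` and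
`C` there is a set `E` of Hausdorff dimension at most `(1/3 - δ/6 + τ) / (1 - θ)` such that for each `t ∈ I`
outside `E`, for all large `n`, `|y² - x³| > C |x| ^ (1/2 - δ)` for all integers `x`, `y` with `y² ≠ x³` and
`||x| - f_n(t)| ≤ f_n(t) ^ θ`.
(2) `t ^ κ_n` is locally expanding on `(1, ∞)` with `τ = 0` if `κ_n / log n → ∞`, and `n ^ t` on `[a, ∞)`
with `τ = 1 / a` for all `a > 0`.
(3) If `κ_n / log n → ∞` and `0 ≤ θ < 2/3` then for almost all `t > 1`, for every `C`, for all large `n`,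
`|y² - x³| > C |x| ^ (1/2)` for all integers `x`, `y` with `y² ≠ x³` and `||x| - t ^ κ_n| ≤ t ^ (κ_n θ)`.
(4) The same holds for `n ^ t` instead of `t ^ κ_n`, for almost all `t > 1 / (2/3 - θ)`. -/
theorem result :
    (∀ (f : ℕ → ℝ → ℝ) (I : Set ℝ) (τ θ δ C : ℝ), 0 ≤ τ → LocExpanding f I τ → 0 ≤ θ → θ < 1 → 0 ≤ δ →
      δ ≤ 1 / 2 → ∃ E : Set ℝ, dimH E ≤ ENNReal.ofReal ((1 / 3 - δ / 6 + τ) / (1 - θ)) ∧ ∀ t ∈ I, t ∉ E →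
        ∃ n₀ : ℕ, ∀ n : ℕ, n₀ ≤ n → ∀ x y : ℤ, y ^ 2 ≠ x ^ 3 → |(|x| : ℝ) - f n t| ≤ (f n t) ^ θ →
          C * |(x : ℝ)| ^ (1 / 2 - δ) < |(y : ℝ) ^ 2 - (x : ℝ) ^ 3|) ∧
    ((∀ κ : ℕ → ℝ, Tendsto (fun n : ℕ => κ n / Real.log n) atTop atTop →
      LocExpanding (fun n t => t ^ κ n) (Set.Ioi 1) 0) ∧
      ∀ a : ℝ, 0 < a → LocExpanding (fun n t => (n : ℝ) ^ t) (Set.Ici a) (1 / a)) ∧
    (∀ κ : ℕ → ℝ, Tendsto (fun n : ℕ => κ n / Real.log n) atTop atTop → ∀ θ : ℝ, 0 ≤ θ → θ < 2 / 3 →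
      ∀ᵐ t : ℝ, 1 < t → ∀ C : ℝ, ∃ n₀ : ℕ, ∀ n : ℕ, n₀ ≤ n → ∀ x y : ℤ, y ^ 2 ≠ x ^ 3 →
        |(|x| : ℝ) - t ^ κ n| ≤ (t ^ κ n) ^ θ →
          C * |(x : ℝ)| ^ (1 / 2 : ℝ) < |(y : ℝ) ^ 2 - (x : ℝ) ^ 3|) ∧
    (∀ θ : ℝ, 0 ≤ θ → θ < 2 / 3 → ∀ᵐ t : ℝ, 1 / (2 / 3 - θ) < t → ∀ C : ℝ, ∃ n₀ : ℕ, ∀ n : ℕ, n₀ ≤ n →
      ∀ x y : ℤ, y ^ 2 ≠ x ^ 3 → |(|x| : ℝ) - (n : ℝ) ^ t| ≤ ((n : ℝ) ^ t) ^ θ →
        C * |(x : ℝ)| ^ (1 / 2 : ℝ) < |(y : ℝ) ^ 2 - (x : ℝ) ^ 3|) := by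
  have hconst : ∀ (F : ℕ → ℝ) (θ : ℝ), (∀ k : ℕ, ∃ n₀ : ℕ, ∀ n : ℕ, n₀ ≤ n → ∀ e ∈ Exc k 0,
      (F n) ^ θ < |(|((e.1 : ℤ) : ℝ)|) - F n|) → ∀ C : ℝ, ∃ n₀ : ℕ, ∀ n : ℕ, n₀ ≤ n →
      ∀ x y : ℤ, y ^ 2 ≠ x ^ 3 → |(|x| : ℝ) - F n| ≤ (F n) ^ θ →
        C * |(x : ℝ)| ^ (1 / 2 : ℝ) < |(y : ℝ) ^ 2 - (x : ℝ) ^ 3| := by
    intro F θ h C
    obtain ⟨k, hk⟩ := exists_nat_ge C
    obtain ⟨n₀, hn⟩ := h k
    refine ⟨n₀, fun n hn1 x y hxy hw => ?_⟩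
    by_contra hcon
    push Not at hcon
    refine absurd (hn n hn1 (x, y) ⟨hxy, ?_⟩) (not_lt.2 hw)
    rw [sub_zero]
    exact hcon.trans (mul_le_mul_of_nonneg_right hk (Real.rpow_nonneg (abs_nonneg _) _))
  have hcount : ∀ k : ℕ, ∀ ε : ℝ, 0 < ε → ∃ K : ℝ, ∀ X : ℝ, 1 ≤ X →
      {e | e ∈ Exc k 0 ∧ |((e.1 : ℤ) : ℝ)| ≤ X}.Finite ∧
      ({e | e ∈ Exc k 0 ∧ |((e.1 : ℤ) : ℝ)| ≤ X}.ncard : ℝ) ≤ K * X ^ (1 / 3 + ε) := by
    intro k ε hε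
    have h := count_x k 0 le_rfl (by norm_num) ε hε
    rw [zero_div, sub_zero] at h
    exact h
  refine ⟨fun f I τ θ δ C hτ hf hθ hθ1 h0 h1 => ?_, ⟨fun κ hκ => Pool.Agent.X16.NW.loc_rpow κ hκ,
    fun a ha => Pool.Agent.X16.NW.loc_npow a ha⟩, fun κ hκ θ hθ hθ1 => ?_, fun θ hθ hθ1 => ?_⟩
  · obtain ⟨E, h2, h3⟩ := Pool.Agent.X16.NW.windows_loc (Exc C δ) (fun e => |((e.1 : ℤ) : ℝ)|) hτ
      (s := 1 / 3 - δ / 6) (by linarith) hθ hθ1 (count_x C δ h0 h1) I f hf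
    refine ⟨E, h2, fun t ht htE => ?_⟩
    obtain ⟨n₀, hn⟩ := h3 t ht htE
    refine ⟨n₀, fun n hn1 x y hxy hw => ?_⟩
    by_contra hcon
    push Not at hcon
    exact absurd (hn n hn1 (x, y) ⟨hxy, hcon⟩) (not_lt.2 hw)
  · have h : ∀ k : ℕ, _ := fun k : ℕ => Pool.Agent.X16.NW.ae_rpow (Exc k 0)
      (fun e => |((e.1 : ℤ) : ℝ)|) (s := 1 / 3) (by norm_num) (hcount k) κ hκ θ hθ (by linarith)
    filter_upwards [ae_all_iff.2 h] with t ht ht1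
    exact hconst (fun n => t ^ κ n) θ fun k => ht k ht1
  · have h : ∀ k : ℕ, _ := fun k : ℕ => Pool.Agent.X16.NW.ae_npow (Exc k 0)
      (fun e => |((e.1 : ℤ) : ℝ)|) (s := 1 / 3) (by norm_num) (hcount k) θ hθ (by linarith)
    filter_upwards [ae_all_iff.2 h] with t ht ht1
    refine hconst (fun n => (n : ℝ) ^ t) θ fun k => ht k ?_
    have e : (1 : ℝ) - 1 / 3 - θ = 2 / 3 - θ := by ring
    rw [e]
    exact ht1

end Pool.Agent.Results.MP_e734ed_nt.RealPowers
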