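import Mathlib
import Pool.Agent.X5.SD.HallAll

/-!
# The inequality of Hall for all `y`, when `x` has small digits in a large base

Let `x = d_0 + d_1 N + ... + d_(2m) N ^ (2m)` with integers `d_i` of any sign, where the leading
coefficient `d_(2m)` is a positive square, `∑ |d_i| ≤ H` and `N ≥ (24 m H ^ 3) ^ (6 m + 6)`. Then
for ALL integers `y` with `y ^ 2 ≠ x ^ 3` we have `|y ^ 2 - x ^ 3| ≥ (24 m H ^ 3) ^ 5 * √x`, and, if
`d_(2m) = c ^ 2`, `N ^ 2 x ≤ 32 H (2 c ^ 3) ^ (24 m) (y ^ 2 - x ^ 3) ^ 2`.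

Method: `x = f(N)` with a polynomial `f` with small coefficients. The polynomial part `g / q` of
`f ^ (3/2)` has small coefficients and a small denominator, so an integer `y` with `y ^ 2` close to
`x ^ 3` is `g(N) / q`; then Davenport's inequality for polynomials (with its `+ 1`, proved here for
polynomials with common factors) is evaluated at `N`.
-/

set_option autoImplicit false

namespace Pool.Agent.Results.MP_e734ed_nt.SmallDigits

open Polynomial Finset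

/-- `x` is the sum of the `d i * N ^ i`, `0 ≤ i ≤ k`, with integers `d i` the sum of whose absolute
values is at most `H`, and with leading coefficient `d k = a`. -/
def Digits (N H : ℤ) (k : ℕ) (a x : ℤ) : Prop :=
  ∃ d : ℕ → ℤ, x = ∑ i ∈ range (k + 1), d i * N ^ i ∧ ∑ i ∈ range (k + 1), |d i| ≤ H ∧ d k = a

theorem result (m : ℕ) (hm : 1 ≤ m) (N H c x y : ℤ) (hc : 1 ≤ c)
    (hN : (24 * m * H ^ 3) ^ (6 * m + 6) ≤ N) (hx : Digits N H (2 * m) (c ^ 2) x)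
    (hne : y ^ 2 ≠ x ^ 3) :
    N ^ 2 * |x| ≤ 32 * H * (2 * c ^ 3) ^ (24 * m) * (y ^ 2 - x ^ 3) ^ 2 ∧
      (24 * m * H ^ 3) ^ 10 * |x| ≤ (y ^ 2 - x ^ 3) ^ 2 := by
  obtain ⟨d, hxd, hsum, hlead⟩ := hx
  obtain ⟨f, hf⟩ : ∃ f : ℤ[X], f = ∑ i ∈ range (2 * m + 1), C (d i) * X ^ i := ⟨_, rfl⟩
  obtain ⟨F, hF⟩ : ∃ F : ℤ[X], F = ∑ i ∈ range (2 * m + 1), C |d i| * X ^ i := ⟨_, rfl⟩
  have hev : f.eval N = x := by
    rw [hf, eval_finsetSum, hxd]
    exact sum_congr rfl fun i _ => by rw [eval_mul, eval_C, eval_pow, eval_X]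
  have hdm : Pool.Agent.X5.SD.Dm f F := by
    rw [hf, hF]
    exact Pool.Agent.X5.SD.Dm.sum _ fun i _ => Pool.Agent.X5.SD.Dm.monomial _ _
  have hF1 : F.eval 1 ≤ H := by
    rw [hF, eval_finsetSum]
    simp only [eval_mul, eval_C, eval_pow, eval_X, one_pow, mul_one]
    exact hsum
  have hcoef : f.coeff (2 * m) = c ^ 2 := by
    rw [hf, finsetSum_coeff, Finset.sum_eq_single (2 * m)]
    · rw [coeff_C_mul_X_pow, if_pos rfl, hlead]
    · intro j _ hj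
      rw [coeff_C_mul_X_pow, if_neg (fun h => hj h.symm)]
    · intro h
      exact absurd (mem_range.2 (Nat.lt_succ_self _)) h
  have hdeg : f.natDegree = 2 * m := by
    apply le_antisymm
    · rw [hf]
      refine natDegree_sum_le_of_forall_le _ _ fun i hi => ?_
      rw [mem_range] at hi
      exact (natDegree_C_mul_X_pow_le _ _).trans (by omega)
    · apply le_natDegree_of_ne_zero
      rw [hcoef]
      positivity
  have hlc : f.leadingCoeff = c ^ 2 := by rw [leadingCoeff, hdeg, hcoef]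
  have h1 := Pool.Agent.X5.SD.hall_all hm hc hdm hF1 hdeg hlc hN y (by rw [hev]; exact hne)
  rw [hev] at h1
  refine ⟨h1, ?_⟩
  have hm1 : (1 : ℤ) ≤ m := by exact_mod_cast hm
  have hcH : c ^ 2 ≤ H := by
    have h2 := (hdm.le_eval (2 * m)).trans hF1
    rw [hcoef] at h2
    exact (le_abs_self _).trans h2
  have hH1 : 1 ≤ H := (one_le_pow₀ hc).trans hcH
  have hH3 : 1 ≤ H ^ 3 := one_le_pow₀ hH1
  obtain ⟨R, hR⟩ : ∃ R : ℤ, R = 24 * m * H ^ 3 := ⟨_, rfl⟩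
  rw [← hR] at hN ⊢
  have hmH : H ^ 3 ≤ m * H ^ 3 := le_mul_of_one_le_left (by linarith) hm1
  have hHH : H ≤ H ^ 3 := le_self_pow₀ hH1 (by norm_num)
  have hR24 : 24 * H ^ 3 ≤ R := by rw [hR]; linarith
  have hR0 : 0 < R := by linarith
  have h3 : (2 * c ^ 3) ^ (24 * m) ≤ R ^ (12 * m) := by
    rw [show 24 * m = 2 * (12 * m) by ring, pow_mul]
    refine pow_le_pow_left₀ (by positivity) ?_ _
    have h4 : (c ^ 2) ^ 3 ≤ H ^ 3 := pow_le_pow_left₀ (by positivity) hcH 3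
    have h5 : (2 * c ^ 3) ^ 2 = 4 * (c ^ 2) ^ 3 := by ring
    rw [h5]
    linarith
  have h6 : R ^ (12 * m) * R ^ 12 ≤ N ^ 2 := by
    have h7 : (R ^ (6 * m + 6)) ^ 2 ≤ N ^ 2 := pow_le_pow_left₀ (by positivity) hN 2
    rw [← pow_mul] at h7
    rw [← pow_add]
    have h8 : 12 * m + 12 = (6 * m + 6) * 2 := by ring
    rw [h8]
    exact h7
  have hD : 0 ≤ (y ^ 2 - x ^ 3) ^ 2 := sq_nonneg _
  have hRp : 0 < R ^ (12 * m) := by positivity
  have h9 : R ^ (12 * m) * (R ^ 12 * |x|) ≤ R ^ (12 * m) * (32 * H * (y ^ 2 - x ^ 3) ^ 2) := by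
    calc R ^ (12 * m) * (R ^ 12 * |x|) = (R ^ (12 * m) * R ^ 12) * |x| := by ring
      _ ≤ N ^ 2 * |x| := mul_le_mul_of_nonneg_right h6 (abs_nonneg _)
      _ ≤ 32 * H * (2 * c ^ 3) ^ (24 * m) * (y ^ 2 - x ^ 3) ^ 2 := h1
      _ = (32 * H * (y ^ 2 - x ^ 3) ^ 2) * (2 * c ^ 3) ^ (24 * m) := by ring
      _ ≤ (32 * H * (y ^ 2 - x ^ 3) ^ 2) * R ^ (12 * m) :=
          mul_le_mul_of_nonneg_left h3 (by positivity)
      _ = _ := by ring
  have h10 : R ^ 12 * |x| ≤ 32 * H * (y ^ 2 - x ^ 3) ^ 2 := le_of_mul_le_mul_left h9 hRp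
  have h11 : 32 * H ≤ R ^ 2 := by nlinarith
  have h12 : R ^ 2 * (R ^ 10 * |x|) ≤ R ^ 2 * (y ^ 2 - x ^ 3) ^ 2 := by
    calc R ^ 2 * (R ^ 10 * |x|) = R ^ 12 * |x| := by ring
      _ ≤ 32 * H * (y ^ 2 - x ^ 3) ^ 2 := h10
      _ ≤ R ^ 2 * (y ^ 2 - x ^ 3) ^ 2 := mul_le_mul_of_nonneg_right h11 hD
  exact le_of_mul_le_mul_left h12 (by positivity)

end Pool.Agent.Results.MP_e734ed_nt.SmallDigits
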